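import Pool.Agent.V1157.AK.Main

/-!
# Abel-Jacobi maps with kernels of bounded dimension are injective

Fix the dimension `n` and the codimension `m`. For Abel-Jacobi maps on homologically trivial cycles
(with rational coefficients), compatible with pull-backs and push-forwards, the following are
equivalent:

1. they are injective for all varieties of dimension `n`;
2. the dimensions of their kernels are bounded, by a bound valid for all varieties of dimension `n`;
3. self-correspondences of degree zero act on the kernels through commuting operators;
4. these operators satisfy some non-zero multilinear polynomial identity.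
-/

open CategoryTheory AlgebraicGeometry

universe u v w

namespace Pool.Agent.Results.MP_e28333_ag.BoundedKernels

open Pool.Agent.H914 Pool.Agent.H914.VarClass Pool.Agent.H914.VarClass.Obj Pool.Agent.W492.BB
  Pool.Agent.TH133 Pool.Agent.V1157.KF Pool.Agent.V1157.AK

theorem result {k : Type u} [Field k] {𝒱 : VarClass k} {C : TheoryData.{u, v, 0} 𝒱 ℚ}
    [IsChowProj C] {K : Type w} [Field K] {H : WeilTheoryData.{u, v, w} C K} [IsWeilProj H]
    (n m : ℕ) (h : AbelJacobi.{u, v, w} H n m)
    (hP : ∀ (S : 𝒱.Obj) (N : ℕ), S.dim = n → HasPower C n N S) :
    List.TFAE [AllInjective h, ∃ D, KernelAtMost h D, KernelCommuting h,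
      ∃ (d : ℕ) (c : Equiv.Perm (Fin d) → ℚ), c ≠ 0 ∧ KernelIdentity h d c] :=
  aj_main h hP

end Pool.Agent.Results.MP_e28333_ag.BoundedKernels
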