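import Pool.Agent.V1126.BN.AJ

/-!
# Kernels of Abel-Jacobi maps over the rational numbers and free pairs of unipotent correspondences
-/

open CategoryTheory AlgebraicGeometry

universe u v w

namespace Pool.Agent.Results.MP_e28333_ag.FreePairs

open Pool.Agent.H914 Pool.Agent.H914.VarClass Pool.Agent.H914.VarClass.Obj Pool.Agent.W492.BB
  Pool.Agent.TH133 Pool.Agent.V1157.KF Pool.Agent.V1157.AK Pool.Agent.V1126.BN

/-- Fix the dimension `n` and the codimension `m`. Consider Abel-Jacobi maps on the homologically
trivial cycles (with rational coefficients) of codimension `m` on the varieties of dimension `n`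
over `ℚ`, compatible with pull-backs and push-forwards, and let `N(X)` be their kernels. Then
`N(X) = 0` for all varieties `X` of dimension `n` if and only if for all these `X` and all
self-correspondences `E_0, E_1` of degree zero of `X` whose squares are zero on `N(X)` the
unipotent bijections `1 + E_0` and `1 + E_1` of `N(X)` satisfy a nontrivial relation (depending
on `X`, `E_0` and `E_1`), that is, they are not free generators of a free group. -/
theorem result {k : Type u} [Field k] {𝒱 : VarClass k} {C : TheoryData.{u, v, 0} 𝒱 ℚ}
    [IsChowProj C] {K : Type w} [Field K] {H : WeilTheoryData.{u, v, w} C K} [IsWeilProj H]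
    (n m : ℕ) (h : AbelJacobi.{u, v, w} H n m)
    (hP : ∀ (S : 𝒱.Obj) (N : ℕ), S.dim = n → HasPower C n N S) :
    AllInjective h ↔ NoFreePairs h :=
  aj_iff h hP

end Pool.Agent.Results.MP_e28333_ag.FreePairs
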