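import Pool.Agent.V11182.GA.Main
import Pool.Agent.V1157.AK.Main

/-!
# Kernels of Abel-Jacobi maps: powers, eigenvalues and group actions of correspondences

Fix the dimension `n` and the codimension `m`. It is shown that the Abel-Jacobi maps on the
homologically trivial cycles of codimension `m` (with rational coefficients), compatible with
pull-backs and push-forwards, are injective for all varieties of dimension `n` as soon as there is a
number `D` such that every single self-correspondence `W` of degree zero of such a variety `X`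
satisfies a very weak condition on the kernel `K(X)`: short orbits, no nilpotency of index exactly
`D + 1`, or at most `D` rational eigenvalues. It is also equivalent to the statement that one group
`G`, which may be any group with a nontrivial finite dimensional representation over `ℚ`, for
example any finite group `G ≠ 1`, has no nontrivial actions on the kernels by correspondences.
-/

set_option autoImplicit false

open CategoryTheory AlgebraicGeometry

universe u v w

namespace Pool.Agent.Results.MP_e28333_ag.GroupActionsAndPowers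

open Pool.Agent.H914 Pool.Agent.H914.VarClass Pool.Agent.H914.VarClass.Obj Pool.Agent.W492.BB
  Pool.Agent.TH133 Pool.Agent.V1157.KF Pool.Agent.V1157.AK Pool.Agent.V11182.GA

/-- The self-correspondences of degree zero of the varieties of dimension `n`. -/
def Self {k : Type u} [Field k] {𝒱 : VarClass k} (C : TheoryData.{u, v, 0} 𝒱 ℚ) (n : ℕ)
    (X : 𝒱.Obj) (W : C.A (X.prod X)) : Prop :=
  C.Deg n W

theorem result {k : Type u} [Field k] {𝒱 : VarClass k} {C : TheoryData.{u, v, 0} 𝒱 ℚ}
    [IsChowProj C] {K : Type w} [Field K] {H : WeilTheoryData.{u, v, w} C K} [IsWeilProj H]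
    (n m : ℕ) (h : AbelJacobi.{u, v, w} H n m)
    (hP : ∀ (S : 𝒱.Obj) (N : ℕ), S.dim = n → HasPower C n N S) :
    (∀ D : ℕ, 1 ≤ D → (AllInjective h ↔ ShortOrbits C (InKernel h) (Self C n) n D)) ∧
    (∀ D : ℕ, 1 ≤ D → (AllInjective h ↔ NoIndex C (InKernel h) (Self C n) n D)) ∧
    (∀ D : ℕ, 1 ≤ D → (AllInjective h ↔ FewEigenvalues C (InKernel h) (Self C n) n D)) ∧
    (∀ (G : Type) [Monoid G] (N : ℕ) (ρ : G →* Matrix (Fin N) (Fin N) ℚ) (g : G), ρ g ≠ 1 →
      (AllInjective h ↔ TrivialActions C (InKernel h) (Self C n) n G)) ∧
    (∀ (G : Type) [Group G] [Finite G] [Nontrivial G],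
      AllInjective h ↔ TrivialActions C (InKernel h) (Self C n) n G) := by
  have hm := main (C := C) (R := InKernel h) (A := Self C n) (n := n) (Vn := AllInjective h) ?_ ?_
  · exact ⟨hm.1, hm.2.1, hm.2.2.2.1, hm.2.2.2.2.1, hm.2.2.2.2.2⟩
  · intro h0 X hX W hW α hα
    rw [h0 X α hX hα, C.act_map_zero]
  · intro h0
    unfold AllInjective at h0
    push Not at h0
    obtain ⟨S, x, hS, hx, hx0⟩ := h0
    refine units_of (H := H) (m := m) (fun h => h.1) ?_ ?_ hS hx hx0 (fun N => hP S N hS) ?_
    · intro X Y f y hX hY hy
      exact ⟨hy.1.pull, (h.φ_up f hX hY hy.1).trans (by rw [hy.2, h.up_zero])⟩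
    · intro X Y f x hX hY hx
      exact ⟨hx.1.push hX hY, (h.φ_down f hX hY hx.1).trans (by rw [hx.2, h.down_zero])⟩
    · intro V ι _ p c hV
      exact Submodule.sum_mem _ fun i _ => Submodule.sum_mem _ fun j _ =>
        Submodule.smul_mem _ _ (mt_mem hS hV _ _)

end Pool.Agent.Results.MP_e28333_ag.GroupActionsAndPowers
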